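import Pool.Agent.H693.AG.Linear

/-!
# Approximate subgroups of `GL_d` whose elements have a large eigenspace (MP_62dea9_al, Q1: true)

There are absolute constants `c > 0` and `C ≥ 1` such that the following holds for every field `F`
(in particular for every algebraically closed field, which is Q1), every `d ≥ 1` and every `K ≥ 1`.
Let `A` be a finite `K`-approximate subgroup of `GL_d(F)` such that every `a ∈ A ^ 2` has an
eigenspace of dimension at least `(1 - c) d`.  Then there are subspaces `V₁ ≤ V₂` of `F ^ d` with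
`dim V₂ - dim V₁ > c d` such that at least `(2 K) ^ (-C d ^ C) |A ^ 2|` elements `a` of `A ^ 2` act
as a scalar from `V₂` to `V₁`: `(a - μ) V₂ ⊆ V₁` for some `μ`.

Proof.  Let `μ a` be the eigenvalue of the large eigenspace.  It is multiplicative on `A` and so
`(μ a, a)`, `a ∈ A`, is a `K`-approximate group which acts on `F ^ d ⊕ F ^ d` and moves the diagonal
`U` by at most `2 c d` for the metric
`dst X Y = dim X + dim Y - 2 dim (X ⊓ Y)`.  The main theorem (`H693AG.almost_stable`): if a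
`K`-approximate group `A` moves the subspace `U` by at most `ρ`, then a set of at least
`(2 K) ^ (-poly ρ) |A ^ 2|` elements of `A ^ 2` stabilises a subspace `U'` with
`dst U U' ≤ 5 ρ`.  It follows from `O(log ρ)` stages (`H693AG.stage`), each of which halves the
distance: the loss in the exponent of `K` is a bounded factor in each stage, hence polynomial in `ρ`
in total.  In one stage one minimises the radius of a dense part of the orbit `{s U}`, uses the
submodularity `dst (Y ⊓ h Y) Z + dst (Y ⊔ h Y) Z ≤ dst Y Z + dst (h Y) Z`, and replaces the almost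
optimal centre `Y` by `Y ⊓ h Y` as long as this reduces the dimension by at least `ρ / 4` for a
popular difference `h`: this happens a bounded number of times only, and then all popular
differences `h` move `Y` by less than `ρ / 2`.
-/

set_option autoImplicit false

namespace Pool.Agent.Results.MP_62dea9_al.LargeEigenspace

open Module Pointwise Matrix H693AG

universe u

/-- every element of `A ^ 2` has an eigenspace of dimension at least `(1 - c) d` -/
def LargeEigenspaces {F : Type u} [Field F] {d : ℕ} (c : ℝ) (A : Set (GL (Fin d) F)) : Prop :=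
  ∀ a ∈ A * A, ∃ μ : F, (1 - c) * d ≤ finrank F (End.eigenspace (toLin' a.1) μ)

/-- the set of the `a` in `A ^ 2` with `(a - μ) V₂ ⊆ V₁` for some scalar `μ` -/
def scalarPart {F : Type u} [Field F] {d : ℕ} (A : Set (GL (Fin d) F))
    (V₁ V₂ : Submodule F (Fin d → F)) : Set (GL (Fin d) F) :=
  {a | a ∈ A * A ∧ ∃ μ : F, ∀ v ∈ V₂, a.1 *ᵥ v - μ • v ∈ V₁}

/-- the theorem with the explicit constants -/
theorem core {F : Type u} [Field F] {d : ℕ} (hd : 1 ≤ d) {K : ℝ} (hK : 1 ≤ K) {T : ℕ}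
    (hT : (2 : ℝ) ^ 13 < T) {A : Set (GL (Fin d) F)} (hfin : A.Finite)
    (hA : IsApproximateSubgroup K A)
    (hbig : LargeEigenspaces (1 / 16) A) :
    ∃ V₁ V₂ : Submodule F (Fin d → F), V₁ ≤ V₂ ∧
      1 / 16 * d < (finrank F V₂ : ℝ) - finrank F V₁ ∧
      ((A * A).ncard : ℝ) / (2 * K) ^ ((2 * d) ^ (12 * T + 3) + 2 * d + 3) ≤
        (scalarPart A V₁ V₂).ncard := by
  classical
  have hd' : (1 : ℝ) ≤ d := by exact_mod_cast hd
  -- the multiplier
  have hmu : ∀ a ∈ A * A, Big (1 / 16) a (mu a : F) := by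
    intro a ha
    obtain ⟨μ, hμ⟩ := hbig a ha
    have h1 : Big (1 / 16) a μ := hμ
    have h2 : μ ≠ 0 := h1.ne_zero hd (by norm_num)
    rw [mu_eq (μ := Units.mk0 μ h2) hd (by norm_num) h1]
    exact h1
  have hAA : ∀ a ∈ A, a ∈ A * A := fun a ha => by
    rw [← mul_one a]; exact Set.mul_mem_mul ha hA.one_mem
  have hmul : ∀ a ∈ A, ∀ b ∈ A, mu (a * b) = mu a * mu b := by
    intro a ha b hb
    have h1 := (hmu a (hAA a ha)).mul (hmu b (hAA b hb))
    refine mu_eq hd (t := 1 / 16 + 1 / 16) (by norm_num) ?_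
    rw [Units.val_mul]; exact h1
  have hone : mu (1 : GL (Fin d) F) = 1 := mu_eq hd (t := 0) (by norm_num) Big.one
  have hinvA : ∀ a ∈ A, a⁻¹ ∈ A := fun a ha => by
    rw [← hA.inv_eq_self]; exact Set.inv_mem_inv.2 ha
  have hmuinv : ∀ a ∈ A, mu a⁻¹ = (mu a)⁻¹ := by
    intro a ha
    have h1 := hmul a ha a⁻¹ (hinvA a ha)
    rw [mul_inv_cancel, hone] at h1
    exact (inv_eq_of_mul_eq_one_right h1.symm).symm
  -- the map to the group of the double space
  let φ : GL (Fin d) F → (EE F d ≃ₗ[F] EE F d) := fun g => act (mu g, g)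
  have hφmul : ∀ a ∈ A, ∀ b ∈ A, φ (a * b) = φ a * φ b := by
    intro a ha b hb
    change act (mu (a * b), a * b) = act (mu a, a) * act (mu b, b)
    rw [← map_mul, hmul a ha b hb]
    rfl
  have hφinj : Function.Injective φ := fun g h he => act_injective he
  let B : Finset (EE F d ≃ₗ[F] EE F d) := hfin.toFinset.image φ
  have hBmem : ∀ b, b ∈ B ↔ ∃ a ∈ A, φ a = b := by
    intro b; simp [B]
  have hBap : IsApproximateSubgroup K (B : Set (EE F d ≃ₗ[F] EE F d)) := by
    refine ⟨?_, ?_, ?_⟩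
    · refine Finset.mem_coe.2 ((hBmem _).2 ⟨1, hA.one_mem, ?_⟩)
      change act (mu 1, 1) = 1
      rw [hone]; exact map_one act
    · have hsub : ∀ b ∈ B, b⁻¹ ∈ B := by
        intro b hb
        obtain ⟨a, ha, rfl⟩ := (hBmem b).1 hb
        refine (hBmem _).2 ⟨a⁻¹, hinvA a ha, ?_⟩
        change act (mu a⁻¹, a⁻¹) = (act (mu a, a))⁻¹
        rw [← map_inv, hmuinv a ha]
        rfl
      ext b
      rw [Set.mem_inv]
      constructor
      · intro h
        have := hsub _ (Finset.mem_coe.1 h)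
        rw [inv_inv] at this
        exact Finset.mem_coe.2 this
      · intro h
        exact Finset.mem_coe.2 (hsub _ (Finset.mem_coe.1 h))
    · obtain ⟨X, hX, hAX⟩ := hA.sq_covBySMul
      refine ⟨X.image φ, le_trans (by exact_mod_cast Finset.card_image_le) hX, ?_⟩
      intro z hz
      rw [pow_two] at hz
      obtain ⟨y₁, hy₁, y₂, hy₂, rfl⟩ := Set.mem_mul.1 hz
      obtain ⟨a, ha, rfl⟩ := (hBmem _).1 (Finset.mem_coe.1 hy₁)
      obtain ⟨b, hb, rfl⟩ := (hBmem _).1 (Finset.mem_coe.1 hy₂)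
      have hab : a * b ∈ A ^ 2 := by rw [pow_two]; exact Set.mul_mem_mul ha hb
      obtain ⟨x, hx, c, hc, hxc⟩ := Set.mem_smul.1 (hAX hab)
      rw [smul_eq_mul] at hxc
      refine Set.mem_smul.2 ⟨φ x, ?_, φ c, ?_, ?_⟩
      · exact Finset.mem_coe.2 (Finset.mem_image_of_mem φ (Finset.mem_coe.1 hx))
      · exact Finset.mem_coe.2 ((hBmem _).2 ⟨c, hc, rfl⟩)
      · have hx' : x = (a * b) * c⁻¹ := by rw [← hxc, mul_inv_cancel_right]
        have h1 := (hmu (a * b) (Set.mul_mem_mul ha hb)).mul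
          ((hmu c (hAA c hc)).inv (Units.ne_zero _))
        have hmux : mu x = mu (a * b) * (mu c)⁻¹ := by
          rw [hx']
          refine mu_eq hd (t := 1 / 16 + 1 / 16) (by norm_num) ?_
          rw [Units.val_mul, Units.val_inv_eq_inv_val]
          exact h1
        rw [← hφmul a ha b hb, smul_eq_mul]
        change act (mu x, x) * act (mu c, c) = act (mu (a * b), a * b)
        rw [← map_mul]
        congr 1
        refine Prod.ext ?_ ?_
        · change mu x * mu c = mu (a * b)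
          rw [hmux, inv_mul_cancel_right]
        · exact hxc
  have hBne : B.Nonempty := ⟨φ 1, (hBmem _).2 ⟨1, hA.one_mem, rfl⟩⟩
  have hBinv : B⁻¹ = B := by
    rw [← Finset.coe_inj, Finset.coe_inv]; exact hBap.inv_eq_self
  have hBcard : ∀ n : ℕ, ((B ^ n).card : ℝ) ≤ K ^ n * B.card := by
    intro n
    refine (hBap.card_pow_le (n := n)).trans ?_
    exact mul_le_mul_of_nonneg_right (pow_le_pow_right₀ hK (Nat.sub_le n 1)) (Nat.cast_nonneg _)
  have hBU : ∀ s ∈ B, (dst dimZ (diag F d) (s • diag F d) : ℝ) ≤ 1 / 8 * d := by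
    intro s hs
    obtain ⟨a, ha, rfl⟩ := (hBmem s).1 hs
    refine (dst_diag_le (hmu a (hAA a ha))).trans (le_of_eq ?_)
    ring
  obtain ⟨U', hU', S, hS, hSU, hSc⟩ := almost_stable (isRank_dim (F := F) (d := d)) hT hK hBne
    hBinv hBcard (U := diag F d) (ρ := 1 / 8 * d) (by positivity) hd
    (by linarith) hBU
  have hdim := dim_VW U'
  set V := U'.comap (diagMap F d) with hV
  set W := U'.comap (LinearMap.inr F (Fin d → F) (Fin d → F)) with hW
  refine ⟨W, W ⊔ V, le_sup_left, ?_, ?_⟩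
  · have h1 : (finrank F V : ℝ) ≤ finrank F (W ⊔ V : Submodule F (Fin d → F)) := by
      exact_mod_cast Submodule.finrank_mono le_sup_right
    linarith
  · -- the count
    have hle1 : ((A * A).ncard : ℝ) ≤ (B ^ 2).card := by
      have h1 : φ '' (A * A) ⊆ ((B ^ 2 : Finset _) : Set (EE F d ≃ₗ[F] EE F d)) := by
        rintro _ ⟨g, hg, rfl⟩
        obtain ⟨a, ha, b, hb, rfl⟩ := Set.mem_mul.1 hg
        rw [hφmul a ha b hb, pow_two]
        exact Finset.mem_coe.2 (Finset.mul_mem_mul ((hBmem _).2 ⟨a, ha, rfl⟩)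
          ((hBmem _).2 ⟨b, hb, rfl⟩))
      have h2 := Set.ncard_le_ncard h1 (Finset.finite_toSet _)
      rw [Set.ncard_image_of_injective _ hφinj, Set.ncard_coe_finset] at h2
      exact_mod_cast h2
    have hle2 : (S.card : ℝ) ≤ (scalarPart A W (W ⊔ V)).ncard := by
      have hfinT : (scalarPart A W (W ⊔ V)).Finite := (hfin.mul hfin).subset (Set.sep_subset _ _)
      have h1 : (S : Set (EE F d ≃ₗ[F] EE F d)) ⊆ φ '' scalarPart A W (W ⊔ V) := by
        intro s hs
        have hsB := hS (Finset.mem_coe.1 hs)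
        rw [pow_two] at hsB
        obtain ⟨y₁, hy₁, y₂, hy₂, hy⟩ := Finset.mem_mul.1 hsB
        obtain ⟨a, ha, rfl⟩ := (hBmem _).1 hy₁
        obtain ⟨b, hb, rfl⟩ := (hBmem _).1 hy₂
        rw [← hφmul a ha b hb] at hy
        refine ⟨a * b, ⟨Set.mul_mem_mul ha hb, mu (a * b), ?_⟩, hy⟩
        have hst : act (mu (a * b), a * b) • U' = U' := by
          have h3 := hSU s (Finset.mem_coe.1 hs)
          rw [← hy] at h3
          exact h3
        exact stab_VW hst
      have h2 := Set.ncard_le_ncard h1 (hfinT.image φ)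
      rw [Set.ncard_coe_finset, Set.ncard_image_of_injective _ hφinj] at h2
      exact_mod_cast h2
    refine le_trans ?_ (hSc.trans hle2)
    exact div_le_div_of_nonneg_right hle1 (by positivity)

/-- **MP_62dea9_al, Q1: the answer is positive** (with `c = 1 / 16`, and over every field). -/
theorem result :
    ∃ c : ℝ, 0 < c ∧ ∃ C : ℝ, 1 ≤ C ∧
      ∀ (F : Type u) [Field F] (d : ℕ), 1 ≤ d → ∀ K : ℝ, 1 ≤ K →
        ∀ A : Set (GL (Fin d) F), A.Finite → IsApproximateSubgroup K A →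
          LargeEigenspaces c A →
          ∃ V₁ V₂ : Submodule F (Fin d → F), V₁ ≤ V₂ ∧
            c * d < (finrank F V₂ : ℝ) - finrank F V₁ ∧
            (2 * K) ^ (-(C * (d : ℝ) ^ C)) * (A * A).ncard ≤ (scalarPart A V₁ V₂).ncard := by
  obtain ⟨T, hT⟩ : ∃ T : ℕ, (2 : ℝ) ^ 13 < T := exists_nat_gt _
  set β := 12 * T + 3 with hβ
  have hβ2 : β ≤ 2 ^ β := (Nat.lt_two_pow_self (n := β)).le
  have hone : (1 : ℝ) ≤ ((2 ^ β + 5 : ℕ) : ℝ) := by
    have : 1 ≤ 2 ^ β + 5 := by omega
    exact_mod_cast this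
  refine ⟨1 / 16, by norm_num, ((2 ^ β + 5 : ℕ) : ℝ), hone, ?_⟩
  intro F _ d hd K hK A hfin hA hbig
  obtain ⟨V₁, V₂, h12, hdim, hcount⟩ := core hd hK hT hfin hA hbig
  refine ⟨V₁, V₂, h12, hdim, le_trans ?_ hcount⟩
  have h2K : (1 : ℝ) ≤ 2 * K := by linarith
  have h2K0 : (0 : ℝ) < 2 * K := by linarith
  rw [Real.rpow_neg h2K0.le, ← div_eq_inv_mul]
  refine div_le_div_of_nonneg_left (Nat.cast_nonneg _) (by positivity) ?_
  rw [Real.rpow_natCast]
  have h1 : (((2 ^ β + 5 : ℕ) : ℝ) * (d : ℝ) ^ (2 ^ β + 5)) =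
      (((2 ^ β + 5) * d ^ (2 ^ β + 5) : ℕ) : ℝ) := by push_cast; ring
  rw [h1, Real.rpow_natCast]
  refine pow_le_pow_right₀ h2K ?_
  have h2 : d ^ β ≤ d ^ (2 ^ β + 5) := Nat.pow_le_pow_right hd (by omega)
  have h3 : d ≤ d ^ (2 ^ β + 5) := Nat.le_self_pow (by omega) d
  calc (2 * d) ^ β + 2 * d + 3 ≤ 2 ^ β * d ^ β + 5 * d := by rw [mul_pow]; omega
    _ ≤ 2 ^ β * d ^ (2 ^ β + 5) + 5 * d ^ (2 ^ β + 5) :=
        Nat.add_le_add (Nat.mul_le_mul_left _ h2) (Nat.mul_le_mul_left _ h3)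
    _ = (2 ^ β + 5) * d ^ (2 ^ β + 5) := by ring

end Pool.Agent.Results.MP_62dea9_al.LargeEigenspace
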